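import Pool.Agent.W295.PR.Stm

/-! # PR-PK: polynomiality of the fibre group -/

set_option autoImplicit false

open Topology

namespace Pool.Agent.W378.PR.PK

open Pool.Agent.W295.PR

theorem isClosed_PDeg {R : Type} [AddCommGroup R] {C : Type} [CommGroup C] [TopologicalSpace C]
    [IsTopologicalGroup C] [T2Space C] (d : ℕ) : IsClosed {c : R → C | PDeg d c} := by
  induction d with
  | zero =>
    have h : {c : R → C | PDeg 0 c} = ⋂ (h : R) (x : R), {c : R → C | c (x + h) = c x} := by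
      ext c
      simp only [Set.mem_setOf_eq, Set.mem_iInter, PDeg]
    rw [h]
    exact isClosed_iInter fun h => isClosed_iInter fun x =>
      isClosed_eq (continuous_apply _) (continuous_apply _)
  | succ d ih =>
    have h : {c : R → C | PDeg (d + 1) c} =
        ⋂ (h : R), (fun c : R → C => fun x => c (x + h) * (c x)⁻¹) ⁻¹' {c : R → C | PDeg d c} := by
      ext c
      simp only [Set.mem_setOf_eq, Set.mem_iInter, PDeg, Set.mem_preimage]
    rw [h]
    refine isClosed_iInter fun h => ih.preimage ?_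
    exact continuous_pi fun x => (continuous_apply _).mul (continuous_apply _).inv

theorem main (h1 : S_L) (h2 : S_PPbp) (h3 : S_PDEG) (h4 : S_T2) : S_PK := by
  intro G _ _ _ N D H H' C _ _ _ _ _ B hH hH' hΓ hHH'
  obtain ⟨s, hs⟩ : ∃ s, lcs G s = ⊥ := Subgroup.nilpotent_iff_lowerCentralSeries.1 N.nil
  obtain ⟨N', hN', hL⟩ := h1 D G H' 1 s le_rfl
  obtain ⟨d, hd⟩ := h3 (RR D) G N' hN' N.nil
  refine ⟨d, fun c hc => ?_⟩
  haveI : T2Space (G ⧸ H) := h4 G H hH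
  -- the embedding of the fibre
  have hjc : Continuous (fun k : C => B.ra k ((1 : G) : G ⧸ H)) :=
    B.ra_cont.comp (continuous_id.prodMk continuous_const)
  have hjpr : ∀ x : H', B.ra (B.pr x) ((1 : G) : G ⧸ H) = ((x : G) : G ⧸ H) := by
    intro x
    rw [B.ra_mk, one_mul]
  have hone : B.pr 1 = 1 := by
    have := B.pr_mul 1 1
    rw [mul_one] at this
    exact (mul_eq_left.1 this.symm)
  have hinv : ∀ x : H', B.pr x⁻¹ = (B.pr x)⁻¹ := by
    intro x
    have := B.pr_mul x⁻¹ x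
    rw [inv_mul_cancel, hone] at this
    exact eq_inv_of_mul_eq_one_left this.symm
  have hji : Function.Injective (fun k : C => B.ra k ((1 : G) : G ⧸ H)) := by
    intro k k' hk
    obtain ⟨x, rfl⟩ := B.pr_surj k
    obtain ⟨x', rfl⟩ := B.pr_surj k'
    simp only [hjpr] at hk
    have h5 : (x : G)⁻¹ * (x' : G) ∈ H := QuotientGroup.eq.1 hk
    have h6 : B.pr (x⁻¹ * x') = 1 := (B.pr_ker _).2 (by simpa using h5)
    rw [B.pr_mul, hinv] at h6
    exact inv_mul_eq_one.1 h6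
  have hJ : IsInducing (Pi.map fun (_ : RR D) (k : C) => B.ra k ((1 : G) : G ⧸ H)) :=
    IsInducing.piMap fun _ => (hjc.isClosedEmbedding hji).isInducing
  set S : Set (RR D → C) := {c' | ∃ (h : RR D → G) (hh : ∀ q, h q ∈ H'), BP N' h ∧
    c' = fun q => B.pr ⟨h q, hh q⟩} with hS
  have hSsub : S ⊆ {c : RR D → C | PDeg d c} := by
    rintro c' ⟨h, hh, hbp, rfl⟩
    exact hd h hbp H' C B.pr B.pr_mul hh
  have hcl : closure S ⊆ {c : RR D → C | PDeg d c} :=
    closure_minimal hSsub (isClosed_PDeg d)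
  refine hcl ?_
  rw [hJ.closure_eq_preimage_closure_image, Set.mem_preimage, mem_closure_iff_nhds]
  intro t ht
  rw [nhds_pi, Filter.mem_pi'] at ht
  obtain ⟨F, O, hO, hOt⟩ := ht
  choose x hx using fun q => B.pr_surj (c q)
  have hyx : ∀ q, B.ra (c q) ((1 : G) : G ⧸ H) = ((x q : G) : G ⧸ H) := by
    intro q
    rw [← hx q, hjpr]
  have hO' : ∀ q, O q ∈ 𝓝 (((x q : G) : G ⧸ H)) := by
    intro q
    rw [← hyx q]
    exact hO q
  -- uniform neighbourhoods
  have hVO : ∀ q, ∃ V ∈ 𝓝 (1 : G), ∃ O' ∈ 𝓝 (((x q : G) : G ⧸ H)), ∀ v ∈ V, ∀ y ∈ O',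
      v⁻¹ • y ∈ O q := by
    intro q
    have hcont : Continuous fun p : G × (G ⧸ H) => p.1⁻¹ • p.2 :=
      continuous_fst.inv.smul continuous_snd
    have h5 : (fun p : G × (G ⧸ H) => p.1⁻¹ • p.2) ⁻¹' O q ∈
        𝓝 ((1 : G), ((x q : G) : G ⧸ H)) := by
      refine hcont.continuousAt ?_
      simpa using hO' q
    rw [nhds_prod_eq] at h5
    obtain ⟨V, hV, O', hO'', hsub⟩ := Filter.mem_prod_iff.1 h5
    exact ⟨V, hV, O', hO'', fun v hv y hy => hsub (Set.mk_mem_prod hv hy)⟩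
  choose V hV O' hO'' hVO using hVO
  have hVF : (⋂ q ∈ F, V q) ∈ 𝓝 (1 : G) := (Filter.biInter_finset_mem F).2 fun q _ => hV q
  obtain ⟨W, hW, E, hWE⟩ := hL (⋂ q ∈ F, V q) hVF F
  -- the approximating element of `𝒫`
  set A : RR D → Set (G ⧸ H) := fun q => (fun g : G => ((g * x q : G) : G ⧸ H)) '' W with hA
  have hAn : ∀ q, A q ∈ 𝓝 (((x q : G) : G ⧸ H)) := by
    intro q
    have hop : IsOpenMap (fun g : G => ((g * x q : G) : G ⧸ H)) :=
      QuotientGroup.isOpenMap_coe.comp (Homeomorph.mulRight (x q : G)).isOpenMap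
    have h5 := hop.image_mem_nhds hW
    simpa using h5
  have hnb : {y : RR D → G ⧸ H | (∀ q ∈ F, y q ∈ O' q) ∧ ∀ q ∈ E, y q ∈ A q} ∈
      𝓝 (fun q => B.ra (c q) ((1 : G) : G ⧸ H)) := by
    have h5 : (F : Set (RR D)).pi O' ∈ 𝓝 (fun q => B.ra (c q) ((1 : G) : G ⧸ H)) :=
      set_pi_mem_nhds F.finite_toSet fun q _ => by rw [hyx q]; exact hO'' q
    have h6 : (E : Set (RR D)).pi A ∈ 𝓝 (fun q => B.ra (c q) ((1 : G) : G ⧸ H)) :=
      set_pi_mem_nhds E.finite_toSet fun q _ => by rw [hyx q]; exact hAn q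
    filter_upwards [h5, h6] with y hy1 hy2
    exact ⟨fun q hq => hy1 q hq, fun q hq => hy2 q hq⟩
  obtain ⟨y, ⟨hy1, hy2⟩, f, hf, rfl⟩ := mem_closure_iff_nhds.1 hc _ hnb
  have hact : ∀ q, act f (w0 H D) q = ((f q : G) : G ⧸ H) := by
    intro q
    show f q • ((1 : G) : G ⧸ H) = _
    rw [MulAction.Quotient.smul_coe, smul_eq_mul, mul_one]
  obtain ⟨h, hbp, hhH, hhF⟩ := hWE f (h2 G N D f hf) (by
    intro q hq
    obtain ⟨w, hw, hwq⟩ := hy2 q hq
    rw [hact] at hwq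
    have h5 : (w * x q : G)⁻¹ * f q ∈ H := QuotientGroup.eq.1 hwq
    refine ⟨w, hw, (x q : G) * ((w * x q : G)⁻¹ * f q),
      H'.mul_mem (x q).2 (hHH' h5), 1, Subgroup.one_mem _, ?_⟩
    group)
  refine ⟨fun q => ((h q : G) : G ⧸ H), hOt ?_, ?_⟩
  · intro q hq
    obtain ⟨v, hv, z, hz, hvz⟩ := hhF q hq
    rw [hs, Subgroup.mem_bot] at hz
    rw [hz, mul_one] at hvz
    have hvq : v ∈ V q := Set.mem_iInter₂.1 hv q hq
    have h5 := hVO q v hvq _ (hy1 q hq)
    rw [hact] at h5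
    have h6 : h q = v⁻¹ * f q := by rw [← hvz]; group
    show ((h q : G) : G ⧸ H) ∈ O q
    rw [h6]
    exact h5
  · refine ⟨fun q => B.pr ⟨h q, hhH q⟩, ⟨h, hhH, hbp, rfl⟩, ?_⟩
    funext q
    exact hjpr ⟨h q, hhH q⟩

end Pool.Agent.W378.PR.PK
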